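import Mathlib
import Pool.Agent.Helper41.LF.GoalsB

/-! # Packet LF-DYAD -/

set_option autoImplicit false

namespace Pool.Agent.Helper41.LF

open MeasureTheory Finset Polynomial Pool.Agent.Helper92

theorem dyad_mesh_pos {d : ℕ} (hd : 1 ≤ d) {R : ℝ} (hR : 1 ≤ R) {H M : ℕ} (hH : 1 ≤ H) (hM : 1 ≤ M) :
    0 < mesh d R H M ∧ mesh d R H M ≤ 1 ∧
      mesh d R H M * (48 * (d : ℝ) ^ 2 * (R + 2) ^ d * M * H) = 1 := by
  have hdR : (1 : ℝ) ≤ d := by exact_mod_cast hd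
  have hHR : (1 : ℝ) ≤ H := by exact_mod_cast hH
  have hMR : (1 : ℝ) ≤ M := by exact_mod_cast hM
  have h1 : (1 : ℝ) ≤ (R + 2) ^ d := one_le_pow₀ (by linarith)
  have h2 : (1 : ℝ) ≤ (d : ℝ) ^ 2 := one_le_pow₀ hdR
  have h3 : (1 : ℝ) ≤ Econ d R := by
    unfold Econ
    have : (1 : ℝ) ≤ (d : ℝ) ^ 2 * (R + 2) ^ d := one_le_mul_of_one_le_of_one_le h2 h1
    nlinarith
  have h4 : (1 : ℝ) ≤ Econ d R * M * H :=
    one_le_mul_of_one_le_of_one_le (one_le_mul_of_one_le_of_one_le h3 hMR) hHR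
  have h5 : (0 : ℝ) < Econ d R * M * H := by linarith
  unfold mesh
  refine ⟨by positivity, ?_, ?_⟩
  · rw [div_le_one h5]; exact h4
  · rw [one_div, inv_mul_eq_one₀ h5.ne']
    rfl

theorem dyad_Kof (M : ℕ) (hM : 1 ≤ M) : Field.Kof (1 / (24 * (M : ℝ))) = M := by
  have hMR : (0 : ℝ) < M := by exact_mod_cast hM
  unfold Field.Kof
  have h1 : 1 / (24 * (1 / (24 * (M : ℝ)))) = M := by
    field_simp
  rw [h1, Nat.floor_natCast]
  exact max_eq_right hM

theorem dyad_val {d : ℕ} (P : ℤ[X]) (hP : P.natDegree ≤ d) (x : ℝ) :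
    ∑ i : Fin (d + 1), ((P.coeff (i : ℕ) : ℤ) : ℝ) * x ^ (i : ℕ) = aeval x P := by
  rw [aeval_eq_sum_range' (n := d + 1) (Nat.lt_succ_of_le hP),
    Fin.sum_univ_eq_sum_range (fun i => ((P.coeff i : ℤ) : ℝ) * x ^ i) (d + 1)]
  apply Finset.sum_congr rfl
  intro i _
  rw [zsmul_eq_mul]

theorem dyad_card {d H : ℕ} (Z : Finset ℤ) (g : ℤ → Finset (Fin (d + 1) → ℤ)) (K : ℝ)
    (hg : ∀ k ∈ Z, ((g k).card : ℝ) ≤ K) :
    ((Z.biUnion fun k => (g k).biUnion fun a => (Avg.polyR a).roots.toFinset).card : ℝ)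
      ≤ (Z.card : ℝ) * (d * K) := by
  classical
  have h1 : ∀ k ∈ Z, (((g k).biUnion fun a => (Avg.polyR a).roots.toFinset).card : ℝ) ≤ d * K := by
    intro k hk
    have h2 : ((g k).biUnion fun a => (Avg.polyR a).roots.toFinset).card ≤ (g k).card * d := by
      refine card_biUnion_le.trans ?_
      calc ∑ a ∈ g k, (Avg.polyR a).roots.toFinset.card ≤ ∑ a ∈ g k, d := by
            apply Finset.sum_le_sum
            intro a _
            exact (Multiset.toFinset_card_le _).trans ((card_roots' _).trans (Avg.polyR_natDegree a))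
        _ = (g k).card * d := by rw [sum_const, smul_eq_mul]
    calc (((g k).biUnion fun a => (Avg.polyR a).roots.toFinset).card : ℝ)
        ≤ (((g k).card * d : ℕ) : ℝ) := Nat.cast_le.mpr h2
      _ = d * ((g k).card : ℝ) := by push_cast; ring
      _ ≤ d * K := mul_le_mul_of_nonneg_left (hg k hk) (by positivity)
  calc ((Z.biUnion fun k => (g k).biUnion fun a => (Avg.polyR a).roots.toFinset).card : ℝ)
      ≤ ((∑ k ∈ Z, ((g k).biUnion fun a => (Avg.polyR a).roots.toFinset).card : ℕ) : ℝ) :=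
        Nat.cast_le.mpr card_biUnion_le
    _ = ∑ k ∈ Z, (((g k).biUnion fun a => (Avg.polyR a).roots.toFinset).card : ℝ) := by push_cast; rfl
    _ ≤ ∑ k ∈ Z, (d * K) := Finset.sum_le_sum h1
    _ = (Z.card : ℝ) * (d * K) := by rw [sum_const, nsmul_eq_mul]

theorem thm_DYAD (hC : S_CELL) (hN : S_CNT) (hP : S_PERT) : S_DYAD := by
  classical
  intro d R hd hR
  obtain ⟨C1, hC1, hN1⟩ := hN d hd
  obtain ⟨C2, θ, hC2, hθ, hC3⟩ := hC d R hd hR
  have hdR : (1 : ℝ) ≤ d := by exact_mod_cast hd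
  have hd0 : (0 : ℝ) < d := by linarith
  refine ⟨d * C1 * C2 / 24, θ, by positivity, hθ, ?_⟩
  intro H M hH hM
  obtain ⟨hh0, hh1, hhE⟩ := dyad_mesh_pos (R := R) hd hR hH hM
  have hHR : (1 : ℝ) ≤ H := by exact_mod_cast hH
  have hMR : (1 : ℝ) ≤ M := by exact_mod_cast hM
  have hM0 : (0 : ℝ) < M := by linarith
  have hH0 : (0 : ℝ) < H := by linarith
  set h : ℝ := mesh d R H M with hhdef
  let N : ℤ := ⌈(R + 1) / h⌉
  let Z : Finset ℤ := (Finset.Icc (-N) N).filter fun k =>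
    (∃ ξ : ℝ, |ξ| ≤ R ∧ |ξ - k * h| ≤ h ∧ ∃ b : ℕ, M ≤ b ∧ b < 2 * M ∧ Near d (1 / (3 * d * H)) ξ b) ∧
    ∀ l : ℕ, 0 < l → l < M → ¬ Near d (1 / (6 * d * H)) (k * h) l
  let δ : ℝ := 1 / (24 * (M : ℝ))
  have hδ0 : 0 < δ := by positivity
  have hZc : (Z.card : ℝ) ≤ C2 * M * H * ((M : ℝ) / (H : ℝ) ^ d) ^ θ :=
    hC3 H M hH hM Z fun k hk => ((Finset.mem_filter.1 hk).2).1
  refine ⟨Z.biUnion fun k => (smallVal d H (k * h) δ).biUnion fun a => (Avg.polyR a).roots.toFinset, ?_, ?_⟩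
  · have h1 : ∀ k ∈ Z, ((smallVal d H (k * h) δ).card : ℝ) ≤ C1 * (H : ℝ) ^ d * δ := by
      intro k hk
      apply hN1 H (k * h) δ hH hδ0
      intro l hl0 hl
      have h2 : Field.Kof δ = M := dyad_Kof M hM
      rw [h2] at hl
      exact ((Finset.mem_filter.1 hk).2).2 l hl0 hl
    refine (dyad_card (d := d) (H := H) Z (fun k => smallVal d H (k * h) δ) _ h1).trans ?_
    have h3 : (0 : ℝ) ≤ d * (C1 * (H : ℝ) ^ d * δ) := by positivity
    calc (Z.card : ℝ) * (d * (C1 * (H : ℝ) ^ d * δ))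
        ≤ (C2 * M * H * ((M : ℝ) / (H : ℝ) ^ d) ^ θ) * (d * (C1 * (H : ℝ) ^ d * δ)) :=
          mul_le_mul_of_nonneg_right hZc h3
      _ = d * C1 * C2 / 24 * (H : ℝ) ^ (d + 1) * ((M : ℝ) / (H : ℝ) ^ d) ^ θ := by
          show (C2 * M * H * ((M : ℝ) / (H : ℝ) ^ d) ^ θ) * (d * (C1 * (H : ℝ) ^ d * (1 / (24 * (M : ℝ))))) = _
          generalize ((M : ℝ) / (H : ℝ) ^ d) ^ θ = T
          field_simp
          ring
  · rintro ξ ⟨hξR, _, P, hP0, hPd, hPH, hroot⟩ hb hnb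
    let k : ℤ := ⌊ξ / h⌋
    have hk1 : (k : ℝ) * h ≤ ξ := by
      have := Int.floor_le (ξ / h)
      rwa [le_div_iff₀ hh0] at this
    have hk2 : ξ < ((k : ℝ) + 1) * h := by
      have := Int.lt_floor_add_one (ξ / h)
      rwa [div_lt_iff₀ hh0] at this
    have hk3 : |ξ - k * h| ≤ h := by
      rw [abs_of_nonneg (by linarith)]
      linarith [add_mul (k : ℝ) 1 h]
    have hk4 : |(k : ℝ) * h| ≤ R + 1 := by
      have h1 : |(k : ℝ) * h| ≤ |ξ| + |ξ - k * h| := by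
        have h5 := abs_sub_abs_le_abs_sub ((k : ℝ) * h) ξ
        rw [abs_sub_comm ξ]
        linarith
      linarith
    have hkN : k ∈ Finset.Icc (-N) N := by
      have h1 : |(k : ℝ)| ≤ (R + 1) / h := by
        rw [le_div_iff₀ hh0]
        rwa [abs_mul, abs_of_pos hh0] at hk4
      have h2 : |(k : ℝ)| ≤ (N : ℝ) := h1.trans (Int.le_ceil _)
      have h3 : |k| ≤ N := by exact_mod_cast h2
      exact Finset.mem_Icc.2 (abs_le.1 h3)
    have hQ1 : (1 : ℝ) ≤ R + 1 := by linarith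
    have hpow : (R + 1) ^ d ≤ (R + 2) ^ d := pow_le_pow_left₀ (by linarith) (by linarith) d
    have hpow0 : (0 : ℝ) ≤ (R + 1) ^ d := by positivity
    have hkZ : k ∈ Z := by
      refine Finset.mem_filter.2 ⟨hkN, ⟨ξ, hξR, hk3, hb⟩, ?_⟩
      intro l hl0 hlM hnear
      apply hnb l hl0 hlM
      refine hP d l (R + 1) (1 / (6 * d * H)) (1 / (3 * d * H)) ξ (k * h) hQ1 (by linarith) hk4 hnear ?_
      have hlR : (l : ℝ) ≤ M := by exact_mod_cast hlM.le
      have h6 : (l : ℝ) * (d * (R + 1) ^ d * |ξ - k * h|) ≤ M * (d * (R + 2) ^ d * h) := by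
        apply mul_le_mul hlR _ (by positivity) hM0.le
        apply mul_le_mul _ hk3 (abs_nonneg _) (by positivity)
        exact mul_le_mul_of_nonneg_left hpow hd0.le
      have h7 : (M : ℝ) * (d * (R + 2) ^ d * h) ≤ 1 / (6 * d * H) := by
        rw [le_div_iff₀ (by positivity)]
        nlinarith [hhE]
      have h8 : (1 : ℝ) / (6 * d * H) + 1 / (6 * d * H) = 1 / (3 * d * H) := by
        field_simp
        norm_num
      linarith
    rw [mem_biUnion]
    refine ⟨k, hkZ, ?_⟩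
    rw [mem_biUnion]
    refine ⟨fun i => P.coeff i, ?_, ?_⟩
    · unfold smallVal
      rw [Finset.mem_filter]
      refine ⟨?_, ?_⟩
      · rw [Avg.mem_box]; intro i; exact hPH i
      · rw [dyad_val P hPd]
        have hval := Avg.abs_aeval_le hQ1 hPd hPH (by linarith : |ξ| ≤ R + 1) hk4 hroot
        refine hval.trans ?_
        show _ ≤ 1 / (24 * (M : ℝ))
        rw [le_div_iff₀ (by positivity)]
        have h9 : ((d : ℝ) + 1) * d * (R + 1) ^ d ≤ 2 * (d : ℝ) ^ 2 * (R + 2) ^ d := by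
          apply mul_le_mul _ hpow hpow0 (by positivity)
          nlinarith
        have h10 : |ξ - (k : ℝ) * h| * (H * (((d : ℝ) + 1) * d * (R + 1) ^ d))
            ≤ h * (H * (2 * (d : ℝ) ^ 2 * (R + 2) ^ d)) := by
          apply mul_le_mul hk3 _ (by positivity) hh0.le
          exact mul_le_mul_of_nonneg_left h9 hH0.le
        calc |ξ - (k : ℝ) * h| * (H * (((d : ℝ) + 1) * d * (R + 1) ^ d)) * (24 * M)
            ≤ h * (H * (2 * (d : ℝ) ^ 2 * (R + 2) ^ d)) * (24 * M) :=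
              mul_le_mul_of_nonneg_right h10 (by positivity)
          _ = h * (48 * (d : ℝ) ^ 2 * (R + 2) ^ d * M * H) := by ring
          _ = 1 := hhE
    · rw [Multiset.mem_toFinset, Avg.polyR_coeffs hPd, mem_roots']
      refine ⟨?_, ?_⟩
      · rw [Ne, Polynomial.map_eq_zero_iff (algebraMap ℤ ℝ).injective_int]; exact hP0
      · rw [IsRoot, eval_map_algebraMap]; exact hroot

end Pool.Agent.Helper41.LF
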